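import Pool.Agent.Helper62.NT.Goals

/-! PROJECT NT (MP_8ff381_an), packet LOC: cut points depend only on the path up to just above them. -/

set_option autoImplicit false

noncomputable section

namespace Pool.Agent.Helper18.NT.LOC

open Pool.Agent.Helper62.NT

theorem s_pos {H : Type} [MetricSpace H] (D : CD H) (n : ℕ) : 0 < D.s n := by
  have hB : (0 : ℝ) < D.B := by
    have : 0 < D.B := lt_of_lt_of_le (by norm_num) D.hB
    exact_mod_cast this
  exact div_pos D.hΔ (pow_pos hB n)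

theorem res_same {H : Type} [MetricSpace H] (R : RT H) (x y : H) (t : ℝ) (ht : 0 ≤ t)
    (h : t ≤ R.gp x y) : R.res x t = R.res y t := by
  refine (R.res_eq x y t ht (h.trans (R.gp_le x y)) ?_).2 h
  rw [R.gp_comm] at h
  exact h.trans (R.gp_le y x)

theorem cp (hR : S_RTB) {H : Type} [MetricSpace H] (D : CD H) (n : ℕ) :
    ∀ (x y : H) (z : ℝ), z < D.R.gp x y → D.CP n x z → D.CP n y z := by
  induction n using Nat.strong_induction_on with
  | _ n ih =>
    intro x y z hz h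
    rw [CD.CP] at h ⊢
    obtain ⟨k, hn, hk, hkz, hzk, h1, ⟨z', hz', hz'x, hz'k, ⟨y₀, hy₀, hy₀d⟩, h2⟩, h3⟩ := h
    have hs : 0 ≤ (k : ℝ) * D.s n := mul_nonneg (Nat.cast_nonneg k) (s_pos D n).le
    have hdy : D.R.gp x y ≤ D.R.dep y := by
      rw [D.R.gp_comm]
      exact D.R.gp_le y x
    refine ⟨k, hn, hk, hkz, hzk, ?_, ?_, ?_⟩
    · intro t ht1 ht2
      rw [← res_same D.R x y t (hs.trans ht1.le) (ht2.trans hz.le)]
      exact h1 t ht1 ht2
    · have hm0 : 0 ≤ min z' (D.R.gp x y) := le_min ((hs.trans hkz).trans hz'.le)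
        (D.R.gp_nonneg x y)
      refine ⟨min z' (D.R.gp x y), lt_min hz' hz, (min_le_right _ _).trans hdy,
        (min_le_left _ _).trans hz'k, ⟨y₀, ?_, hy₀d⟩, ?_⟩
      · rw [← res_same D.R x y _ hm0 (min_le_right _ _)]
        refine (hR H D.R).2.2.2.2.2.1 _ _ _ ?_ hy₀
        have e1 : D.R.dep (D.R.res x (min z' (D.R.gp x y))) = min z' (D.R.gp x y) :=
          D.R.dep_res x _ hm0 ((min_le_left _ _).trans hz'x)
        have e2 : D.R.dep (D.R.res x z') = z' :=
          D.R.dep_res x _ ((hs.trans hkz).trans hz'.le) hz'x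
        refine ⟨?_, ?_⟩
        · rw [e1, e2]
          exact min_le_left _ _
        · rw [e1]
          exact D.R.res_res x _ _ hm0 (min_le_left _ _) hz'x
      · intro t ht1 ht2
        rw [← res_same D.R x y t ((hs.trans hkz).trans ht1.le) (ht2.trans (min_le_right _ _))]
        exact h2 t ht1 (ht2.trans (min_le_left _ _))
    · intro n' hn' z'' hz1 hz2 hc
      refine h3 n' hn' z'' hz1 hz2 (ih n' hn' y x z'' ?_ hc)
      rw [D.R.gp_comm]
      exact hz2.trans hz

theorem t (hR : S_RTB) : S_LOC := by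
  intro H _ D
  have hle : ∀ p q, D.R.le p q ↔ D.R.gp p q = D.R.dep p := (hR H D.R).2.2.2.2.1
  have htr : ∀ p q r, D.R.le p q → D.R.le q r → D.R.le p r := (hR H D.R).2.2.2.2.2.1
  refine ⟨fun n x y z => cp hR D n x y z, ?_, ?_⟩
  · intro p q r h1 h2
    refine ⟨htr p q r h1.1 h2.1, fun n z hz1 hz2 hc => ?_⟩
    rcases lt_or_ge z (D.R.dep q) with h | h
    · refine h1.2 n z hz1 h (cp hR D n r q z ?_ hc)
      rw [D.R.gp_comm, (hle q r).1 h2.1]
      exact h
    · exact h2.2 n z h hz2 hc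
  · intro p q r h1 h2 h3
    refine ⟨⟨h2, fun n z hz1 hz2 hc => ?_⟩, ⟨h3, fun n z hz1 hz2 hc => ?_⟩⟩
    · refine h1.2 n z hz1 (lt_of_lt_of_le hz2 h3.1) (cp hR D n q r z ?_ hc)
      rw [(hle q r).1 h3]
      exact hz2
    · exact h1.2 n z (h2.1.trans hz1) hz2 hc

end Pool.Agent.Helper18.NT.LOC
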